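import Mathlib

namespace Pool.Agent.H.MP_1ae38f_an

open Set Metric MeasureTheory Complex Real
open scoped ENNReal

/-- `f` lies in `H^p`: the circle integrals of `|f|^p` are bounded. -/
def InH (p : ℝ) (f : ℂ → ℂ) : Prop :=
  ∃ M : ℝ, ∀ r ∈ Ioo (0 : ℝ) 1, ∫ θ in (0 : ℝ)..2 * π, ‖f (r * exp (θ * I))‖ ^ p ≤ M

/-- `f` lies in `A^p_α`. -/
def InA (p α : ℝ) (f : ℂ → ℂ) : Prop :=
  ∫⁻ z in ball (0 : ℂ) 1, ENNReal.ofReal (‖f z‖ ^ p * (1 - ‖z‖) ^ α) < ∞

noncomputable def hF (f : ℂ → ℂ) : ℝ≥0∞ :=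
  sSup ({0} ∪ {x | ∃ p : ℝ, 0 < p ∧ InH p f ∧ x = ENNReal.ofReal p})

noncomputable def bF (f : ℂ → ℂ) : ℝ≥0∞ :=
  sSup ({0} ∪ {x | ∃ p α : ℝ, 0 < p ∧ -1 < α ∧ InA p α f ∧ x = ENNReal.ofReal (p / (α + 2))})

noncomputable def baF (α : ℝ) (f : ℂ → ℂ) : ℝ≥0∞ :=
  sSup ({0} ∪ {x | ∃ p : ℝ, 0 < p ∧ InA p α f ∧ x = ENNReal.ofReal p})

/-- Holomorphic maps from the unit disc to `D`. -/
def Hol (D : Set ℂ) : Set (ℂ → ℂ) :=
  {f | DifferentiableOn ℂ f (ball 0 1) ∧ MapsTo f (ball 0 1) D}

noncomputable def hD (D : Set ℂ) : ℝ≥0∞ := ⨅ f ∈ Hol D, hF f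
noncomputable def bD (D : Set ℂ) : ℝ≥0∞ := ⨅ f ∈ Hol D, bF f
noncomputable def baD (α : ℝ) (D : Set ℂ) : ℝ≥0∞ := ⨅ f ∈ Hol D, baF α f

theorem cm_mem {c : ℂ} {r δ : ℝ} (h0 : 0 < r) (h : r < δ) (θ : ℝ) :
    circleMap c r θ ∈ ball c δ := by
  simp [circleMap, abs_of_pos h0, h]

theorem cont_cm {E : Type*} [TopologicalSpace E] {φ : ℂ → E} {c : ℂ} {r δ : ℝ}
    (hφ : ContinuousOn φ (ball c δ)) (h0 : 0 < r)
    (h : r < δ) : Continuous fun θ : ℝ => φ (circleMap c r θ) :=
  hφ.comp_continuous (continuous_circleMap c r) (cm_mem h0 h)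

theorem polar {φ : ℂ → ℝ} {c : ℂ} {δ : ℝ} (hφ : ContinuousOn φ (ball c δ))
    (h0 : ∀ z ∈ ball c δ, 0 ≤ φ z) :
    ∫⁻ z in ball c δ, ENNReal.ofReal (φ z) =
      ∫⁻ r in Ioo 0 δ, ENNReal.ofReal (r * ∫ θ in (0 : ℝ)..2 * π, φ (circleMap c r θ)) := by
  classical
  set F : ℂ → ℝ≥0∞ := indicator (ball c δ) fun z => ENNReal.ofReal (φ z) with hF
  have hm : Measurable F := by
    have : ContinuousOn (fun z => ENNReal.ofReal (φ z)) (ball c δ) :=
      ENNReal.continuous_ofReal.comp_continuousOn hφ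
    exact this.measurable_piecewise (g := fun _ => 0) continuousOn_const measurableSet_ball
  rw [← lintegral_indicator measurableSet_ball, ← hF, ← lintegral_add_left_eq_self F c,
    ← Complex.lintegral_comp_polarCoord_symm, polarCoord_target, Measure.volume_eq_prod,
    setLIntegral_prod]
  · rw [show Ioo (0 : ℝ) δ = Ioo 0 δ ∩ Ioi 0 from (inter_eq_left.2 Ioo_subset_Ioi_self).symm,
      ← setLIntegral_indicator measurableSet_Ioo]
    refine setLIntegral_congr_fun measurableSet_Ioi fun r hr => ?_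
    have hr0 : 0 < r := hr
    have e : ∀ θ : ℝ, c + Complex.polarCoord.symm (r, θ) = circleMap c r θ := by
      intro θ
      simp [circleMap, Complex.polarCoord_symm_apply, exp_mul_I]
    simp only [e, smul_eq_mul]
    by_cases h : r < δ
    · rw [indicator_of_mem (show r ∈ Ioo 0 δ from ⟨hr0, h⟩), lintegral_const_mul' _ _ (by simp),
        ENNReal.ofReal_mul hr0.le]
      congr 1
      simp only [hF, indicator_of_mem (cm_mem hr0 h _)]
      have hc := cont_cm hφ hr0 h
      rw [← ofReal_integral_eq_lintegral_ofReal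
        (hc.continuousOn.integrableOn_Icc.mono_set Ioo_subset_Icc_self)
        (Filter.Eventually.of_forall fun θ => h0 _ (cm_mem hr0 h _)),
        ← integral_Ioc_eq_integral_Ioo, ← intervalIntegral.integral_of_le (by linarith [pi_pos])]
      congr 1
      have hp : Function.Periodic (fun θ : ℝ => φ (circleMap c r θ)) (2 * π) :=
        fun θ => by simp only [periodic_circleMap c r θ]
      have := hp.intervalIntegral_add_eq (-π) 0
      rw [show -π + 2 * π = π by ring, zero_add] at this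
      exact this
    · rw [indicator_of_notMem (fun hh => h hh.2)]
      have : ∀ θ : ℝ, F (circleMap c r θ) = 0 := fun θ => by
        rw [hF, indicator_of_notMem]
        simp [circleMap, abs_of_pos hr0, h]
      simp [this]
  · refine Measurable.aemeasurable ?_
    refine Measurable.smul (ENNReal.measurable_ofReal.comp measurable_fst) (hm.comp ?_)
    refine Measurable.const_add ?_ c
    have : (Complex.polarCoord.symm : ℝ × ℝ → ℂ) =
        fun p => (p.1 : ℂ) * (Real.cos p.2 + Real.sin p.2 * I) :=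
      funext Complex.polarCoord_symm_apply
    rw [this]
    fun_prop

theorem mv {g : ℂ → ℂ} {c : ℂ} {r δ : ℝ} (hg : DifferentiableOn ℂ g (ball c δ)) (h0 : 0 < r)
    (h : r < δ) : ∫ θ in (0 : ℝ)..2 * π, g (circleMap c r θ) = (2 * π : ℝ) * g c := by
  have h1 : DiffContOnCl ℂ g (ball c |r|) := by
    rw [abs_of_pos h0]
    refine DifferentiableOn.diffContOnCl (hg.mono ?_)
    rw [closure_ball c h0.ne']
    exact closedBall_subset_ball h
  have := h1.circleAverage
  rw [circleAverage_def] at this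
  rw [← this, real_smul, ← mul_assoc]
  have : (2 * π : ℝ) ≠ 0 := by positivity
  rw [← ofReal_mul, mul_inv_cancel₀ this]
  simp

theorem HA {p α : ℝ} {f : ℂ → ℂ} (hf : DifferentiableOn ℂ f (ball 0 1)) (hp : 0 < p)
    (hα : -1 < α) (h : InH p f) : InA p α f := by
  obtain ⟨M, hM⟩ := h
  unfold InA
  have hb : ∀ z ∈ ball (0 : ℂ) 1, 0 < 1 - ‖z‖ := fun z hz => by simpa using hz
  rw [polar]
  · have hi : IntegrableOn (fun r : ℝ => |M| * (1 - r) ^ α) (Ioo 0 1) := by
      have := (intervalIntegral.intervalIntegrable_rpow' (a := 1) (b := 0) hα).comp_sub_left 1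
      simp only [sub_self, sub_zero] at this
      rw [intervalIntegrable_iff_integrableOn_Ioo_of_le zero_le_one] at this
      exact this.const_mul _
    refine lt_of_le_of_lt ?_ hi.lintegral_lt_top
    refine setLIntegral_mono' measurableSet_Ioo fun r hr => ENNReal.ofReal_le_ofReal ?_
    have e : ∀ θ : ℝ, ‖circleMap 0 r θ‖ = r := fun θ => by simp [abs_of_pos hr.1]
    simp only [e]
    rw [intervalIntegral.integral_mul_const]
    have h1 := hM r hr
    have h2 : 0 ≤ (1 - r) ^ α := rpow_nonneg (by linarith [hr.2]) _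
    have h3 : ∫ θ in (0 : ℝ)..2 * π, ‖f (circleMap 0 r θ)‖ ^ p ≤ |M| := by
      simp only [circleMap, zero_add]
      exact h1.trans (le_abs_self M)
    have h4 : 0 ≤ ∫ θ in (0 : ℝ)..2 * π, ‖f (circleMap 0 r θ)‖ ^ p :=
      intervalIntegral.integral_nonneg (by positivity) fun _ _ => by positivity
    calc _ ≤ 1 * (|M| * (1 - r) ^ α) := by gcongr; exact hr.2.le
      _ = _ := one_mul _
  · refine ContinuousOn.mul (hf.continuousOn.norm.rpow_const fun _ _ => Or.inr hp.le)
      (ContinuousOn.rpow_const (by fun_prop) fun z hz => Or.inl (hb z hz).ne')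
  · intro z hz
    have := hb z hz
    positivity

theorem growth {p α : ℝ} {f : ℂ → ℂ} (hf : DifferentiableOn ℂ f (ball 0 1)) (hα : -1 < α)
    (h : InA p α f) (n : ℕ) (hn : (n : ℝ) ≤ p) :
    ∃ C : ℝ, ∀ z ∈ ball (0 : ℂ) 1, ‖f z‖ ^ n * ((1 - ‖z‖) / 2) ^ (α + 2) ≤ C := by
  unfold InA at h
  set J := ∫⁻ z in ball (0 : ℂ) 1, ENNReal.ofReal (‖f z‖ ^ p * (1 - ‖z‖) ^ α) with hJ
  refine ⟨1 + 3 * J.toReal, fun z hz => ?_⟩
  have hz1 : ‖z‖ < 1 := by simpa using hz
  set δ := (1 - ‖z‖) / 2 with hδ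
  have hδ0 : 0 < δ := by linarith
  have hδ1 : δ ≤ 1 := by linarith [norm_nonneg z]
  have hw : ∀ w ∈ ball z δ, δ ≤ 1 - ‖w‖ ∧ 1 - ‖w‖ ≤ 3 * δ := fun w hw => by
    rw [mem_ball, dist_eq_norm] at hw
    have := abs_le.1 (abs_norm_sub_norm_le w z)
    constructor <;> linarith
  have hsub : ball z δ ⊆ ball 0 1 := fun w h => by
    have := (hw w h).1
    simp only [mem_ball, dist_zero_right]; linarith
  have hg : DifferentiableOn ℂ (fun w => f w ^ n) (ball z δ) := (hf.mono hsub).pow n
  have h1 : ENNReal.ofReal (π * δ ^ 2 * ‖f z‖ ^ n) ≤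
      ∫⁻ w in ball z δ, ENNReal.ofReal (‖f w ^ n‖) := by
    rw [polar hg.continuousOn.norm (fun _ _ => norm_nonneg _)]
    have e : ENNReal.ofReal (π * δ ^ 2 * ‖f z‖ ^ n) =
        ∫⁻ r in Ioo 0 δ, ENNReal.ofReal (r * (2 * π * ‖f z‖ ^ n)) := by
      rw [← ofReal_integral_eq_lintegral_ofReal, ← integral_Ioc_eq_integral_Ioo,
        ← intervalIntegral.integral_of_le hδ0.le, intervalIntegral.integral_mul_const,
        integral_id]
      · congr 1; ring
      · exact (Continuous.continuousOn (by fun_prop)).integrableOn_Icc.mono_set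
          Ioo_subset_Icc_self
      · filter_upwards [ae_restrict_mem measurableSet_Ioo] with r hr
        have := hr.1
        simp only [Pi.zero_apply]; positivity
    rw [e]
    refine setLIntegral_mono' measurableSet_Ioo fun r hr => ENNReal.ofReal_le_ofReal ?_
    refine mul_le_mul_of_nonneg_left ?_ hr.1.le
    refine le_trans (le_of_eq ?_) (intervalIntegral.norm_integral_le_integral_norm (by positivity))
    rw [mv hg hr.1 hr.2]
    simp [abs_of_pos pi_pos]
  have hda : 0 < δ ^ α := rpow_pos_of_pos hδ0 _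
  have h2 : ∫⁻ w in ball z δ, ENNReal.ofReal (‖f w ^ n‖) ≤
      ENNReal.ofReal (π * δ ^ 2) + ENNReal.ofReal (3 / δ ^ α) * J := by
    calc _ ≤ ∫⁻ w in ball z δ, (1 + ENNReal.ofReal (3 / δ ^ α) *
            ENNReal.ofReal (‖f w‖ ^ p * (1 - ‖w‖) ^ α)) := by
          refine setLIntegral_mono' measurableSet_ball fun w hw' => ?_
          obtain ⟨a1, a2⟩ := hw w hw'
          rw [← ENNReal.ofReal_mul (by positivity), ← ENNReal.ofReal_one,
            ← ENNReal.ofReal_add zero_le_one (by have : 0 < 1 - ‖w‖ := by linarith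
                                                 positivity)]
          refine ENNReal.ofReal_le_ofReal ?_
          have b1 : δ ^ α ≤ 3 * (1 - ‖w‖) ^ α := by
            rcases le_total 0 α with hh | hh
            · have := rpow_le_rpow hδ0.le a1 hh
              linarith
            · have c1 := rpow_le_rpow_of_nonpos (by linarith) a2 hh
              rw [mul_rpow (by norm_num) hδ0.le] at c1
              have c2 : (3 : ℝ) ^ (-1 : ℝ) ≤ 3 ^ α :=
                rpow_le_rpow_of_exponent_le (by norm_num) hα.le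
              rw [rpow_neg_one] at c2
              nlinarith
          have b2 : ‖f w ^ n‖ ≤ 1 + ‖f w‖ ^ p := by
            rw [norm_pow]
            rcases le_total ‖f w‖ 1 with hh | hh
            · have := pow_le_one₀ (n := n) (norm_nonneg _) hh
              have : 0 ≤ ‖f w‖ ^ p := by positivity
              linarith
            · have := rpow_le_rpow_of_exponent_le hh hn
              rw [rpow_natCast] at this
              linarith
          have b3 : ‖f w‖ ^ p ≤ 3 / δ ^ α * (‖f w‖ ^ p * (1 - ‖w‖) ^ α) := by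
            rw [div_mul_eq_mul_div, le_div_iff₀ hda]
            have : 0 ≤ ‖f w‖ ^ p := by positivity
            nlinarith
          linarith
      _ ≤ _ := by
          rw [lintegral_add_left measurable_const, lintegral_const_mul' _ _ (by simp)]
          gcongr
          · simp only [lintegral_const, one_mul, Measure.restrict_apply MeasurableSet.univ,
              univ_inter, Complex.volume_ball]
            rw [mul_comm π, ENNReal.ofReal_mul (by positivity), ENNReal.ofReal_pow hδ0.le,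
              ← NNReal.coe_real_pi, ENNReal.ofReal_coe_nnreal]
          · exact lintegral_mono_set hsub
  have h3 := h1.trans h2
  rw [← ENNReal.ofReal_toReal h.ne, ← ENNReal.ofReal_mul (by positivity),
    ← ENNReal.ofReal_add (by positivity) (by positivity),
    ENNReal.ofReal_le_ofReal_iff (by positivity)] at h3
  rw [rpow_add hδ0, rpow_two]
  have h4 : δ ^ α * δ ^ 2 ≤ 1 := by
    rw [← rpow_two, ← rpow_add hδ0]
    exact rpow_le_one hδ0.le hδ1 (by linarith)
  have h5 : δ ^ α * (3 / δ ^ α * J.toReal) = 3 * J.toReal := by field_simp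
  have h6 := mul_le_mul_of_nonneg_left h3 hda.le
  have h7 : 0 ≤ J.toReal := ENNReal.toReal_nonneg
  have h8 : 0 ≤ ‖f z‖ ^ n * (δ ^ α * δ ^ 2) := by positivity
  nlinarith [pi_gt_three]

end Pool.Agent.H.MP_1ae38f_an
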