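import Pool.Agent.H.MP_1ae38f_an.A

namespace Pool.Agent.H.MP_1ae38f_an

open Set Metric MeasureTheory Complex Real

noncomputable def t (k : ℕ) : ℝ := (1 / 2) ^ (k + 1)
noncomputable def c (k : ℕ) : ℝ := t k ^ 3 / 10000
noncomputable def eps (k : ℕ) (x : ℝ) : ℝ := min (c k) (t k / 40 * rexp (-(x + 2) / (2 * c k)))
noncomputable def mu (k : ℕ) (x : ℝ) : ℝ := eps k x / (2 * (k + 1))
noncomputable def X : ℕ → ℝ
  | 0 => 4
  | k + 1 => X k + 3 + 3 * c k * (3 + 1 / mu k (X k) ^ 4)
noncomputable def A (k : ℕ) : ℝ := rexp (2 * X (k + 1))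
noncomputable def eta (k : ℕ) : ℝ := t k ^ 2 / 5 / A k

def box (a b a' b' : ℝ) : Set ℂ := {w | a < w.re ∧ w.re < b ∧ a' < w.im ∧ w.im < b'}
def C0 : Set ℂ := box (-3) 3 (-3) 3
def T (s : ℝ) (k : ℕ) : Set ℂ := box s (X (k + 1)) (4 / 5 * t k) (6 / 5 * t k)
def Rc (k : ℕ) : Set ℂ := box (X k) (X (k + 1)) (4 / 5 * t k) (X (k + 1))
def G (k : ℕ) : Set ℂ := box 2 4 (t k) (t k + eta k)
def W (k : ℕ) : Set ℂ := G k ∪ T 3 k ∪ Rc k
def D1 : Set ℂ := ⋃ k, C0 ∪ (T 2 k ∪ Rc k)
def D2 : Set ℂ := ⋃ k, C0 ∪ W k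

theorem t_pos (k : ℕ) : 0 < t k := by unfold t; positivity
theorem t_le (k : ℕ) : t k ≤ 1 / 2 := by
  unfold t; rw [pow_succ]
  have := pow_le_one₀ (n := k) (show (0 : ℝ) ≤ 1 / 2 by norm_num) (by norm_num)
  linarith
theorem t_lt {j k : ℕ} (h : j < k) : 2 * t k ≤ t j := by
  unfold t
  have := pow_le_pow_of_le_one (show (0 : ℝ) ≤ 1 / 2 by norm_num) (by norm_num)
    (show j + 1 ≤ k from h)
  rw [pow_succ _ k]; linarith
theorem t_sum (N : ℕ) : ∑ k ∈ Finset.range N, t k ≤ 1 := by
  have : ∑ k ∈ Finset.range N, t k = 1 - (1 / 2) ^ N := by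
    induction N with
    | zero => simp
    | succ n ih => rw [Finset.sum_range_succ, ih, t]; ring
  have h : (0 : ℝ) ≤ (1 / 2) ^ N := by positivity
  linarith
theorem c_pos (k : ℕ) : 0 < c k := by have := t_pos k; unfold c; positivity
theorem eps_pos (k : ℕ) (x : ℝ) : 0 < eps k x := by
  have := t_pos k
  exact lt_min (c_pos k) (by positivity)
theorem mu_pos (k : ℕ) (x : ℝ) : 0 < mu k x := by have := eps_pos k x; unfold mu; positivity
theorem X_succ (k : ℕ) : X k + 3 ≤ X (k + 1) := by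
  have := c_pos k
  have := mu_pos k (X k)
  have : 0 ≤ 3 * c k * (3 + 1 / mu k (X k) ^ 4) := by positivity
  rw [X]; linarith
theorem X_mono : Monotone X := monotone_nat_of_le_succ fun k => by linarith [X_succ k]
theorem X_ge (k : ℕ) : 4 ≤ X k := X_mono (Nat.zero_le k)
theorem A_ge (k : ℕ) : 1 ≤ A k := one_le_exp (by linarith [X_ge (k + 1)])
theorem eta_pos (k : ℕ) : 0 < eta k := by
  have := t_pos k; have := A_ge k; unfold eta; positivity
theorem A_eta (k : ℕ) : A k * eta k = t k ^ 2 / 5 := by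
  have := A_ge k; unfold eta; field_simp
theorem eta_le (k : ℕ) : eta k ≤ t k / 5 := by
  have := A_eta k; have := A_ge k; have := eta_pos k; have := t_pos k; have := t_le k
  nlinarith

theorem box_open (a b a' b' : ℝ) : IsOpen (box a b a' b') :=
  (isOpen_lt continuous_const continuous_re).and ((isOpen_lt continuous_re continuous_const).and
    ((isOpen_lt continuous_const continuous_im).and (isOpen_lt continuous_im continuous_const)))

theorem box_pc (a b a' b' : ℝ) : IsPreconnected (box a b a' b') :=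
  ((convex_halfSpace_re_gt a).inter ((convex_halfSpace_re_lt b).inter
    ((convex_halfSpace_im_gt a').inter (convex_halfSpace_im_lt b')))).isPreconnected

theorem W_open (k : ℕ) : IsOpen (W k) :=
  ((box_open _ _ _ _).union (box_open _ _ _ _)).union (box_open _ _ _ _)

theorem D1_open : IsOpen D1 := isOpen_iUnion fun _ =>
  (box_open _ _ _ _).union ((box_open _ _ _ _).union (box_open _ _ _ _))

theorem D2_open : IsOpen D2 := isOpen_iUnion fun k => (box_open _ _ _ _).union (W_open k)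

theorem zero_mem : (0 : ℂ) ∈ C0 := by simp [C0, box]

theorem D1_conn : IsConnected D1 := by
  refine ⟨⟨0, mem_iUnion.2 ⟨0, Or.inl zero_mem⟩⟩, isPreconnected_iUnion
    ⟨0, mem_iInter.2 fun _ => Or.inl zero_mem⟩ fun k => ?_⟩
  have := t_pos k; have := t_le k; have := X_ge k; have := X_succ k
  refine (box_pc _ _ _ _).union ⟨5 / 2, t k⟩ ?_ (Or.inl ?_)
    ((box_pc _ _ _ _).union ⟨X k + 1, t k⟩ ?_ ?_ (box_pc _ _ _ _))
  all_goals refine ⟨?_, ?_, ?_, ?_⟩ <;> simp only <;> linarith

theorem D2_conn : IsConnected D2 := by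
  refine ⟨⟨0, mem_iUnion.2 ⟨0, Or.inl zero_mem⟩⟩, isPreconnected_iUnion
    ⟨0, mem_iInter.2 fun _ => Or.inl zero_mem⟩ fun k => ?_⟩
  have := t_pos k; have := t_le k; have := X_ge k; have := X_succ k
  have := eta_pos k; have := eta_le k
  refine (box_pc _ _ _ _).union ⟨5 / 2, t k + eta k / 2⟩ ?_ (Or.inl (Or.inl ?_))
    (((box_pc _ _ _ _).union ⟨7 / 2, t k + eta k / 2⟩ ?_ ?_ (box_pc _ _ _ _)).union
      ⟨X k + 1, t k⟩ (Or.inr ?_) ?_ (box_pc _ _ _ _))
  all_goals refine ⟨?_, ?_, ?_, ?_⟩ <;> simp only <;> linarith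

theorem nle {w : ℂ} {a b : ℝ} (h1 : -a < w.re) (h2 : w.re ≤ a) (h3 : -b < w.im) (h4 : w.im < b) :
    ‖w‖ ≤ a + b :=
  (norm_le_abs_re_add_abs_im w).trans
    (add_le_add (abs_le.2 ⟨h1.le, h2⟩) (abs_le.2 ⟨h3.le, h4.le⟩))

theorem D_eq : D1 ∩ {w | 6 < ‖w‖} = D2 ∩ {w | 6 < ‖w‖} := by
  ext w
  simp only [D1, D2, W, mem_inter_iff, mem_iUnion, mem_setOf_eq, and_congr_left_iff]
  intro hw
  refine exists_congr fun k => ?_
  have := t_pos k; have := t_le k; have := eta_le k
  constructor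
  · rintro (h | h | h)
    · exact Or.inl h
    · refine Or.inr (Or.inl (Or.inr ⟨?_, h.2⟩))
      by_contra hh
      have := nle (w := w) (a := 3) (b := 1) (by linarith [h.1]) (not_lt.1 hh)
        (by linarith [h.2.2.1]) (by linarith [h.2.2.2])
      linarith
    · exact Or.inr (Or.inr h)
  · rintro (h | (h | h) | h)
    · exact Or.inl h
    · have := nle (w := w) (a := 4) (b := 1) (by linarith [h.1]) h.2.1.le
        (by linarith [h.2.2.1]) (by linarith [h.2.2.2])
      linarith
    · exact Or.inr (Or.inl ⟨by linarith [h.1], h.2⟩)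
    · exact Or.inr (Or.inr h)

theorem W_a {k : ℕ} {w : ℂ} (h : w ∈ W k) :
    2 < w.re ∧ w.re < X (k + 1) ∧ 4 / 5 * t k < w.im ∧ w.im < X (k + 1) ∧
      (w.im < 6 / 5 * t k ∨ X k < w.re) ∧ (3 < w.re ∨ t k < w.im ∧ w.im < t k + eta k) ∧
      (3 < w.re ∨ ‖w‖ ≤ 6) := by
  have := t_pos k; have := t_le k; have := eta_le k; have := X_ge k; have := X_succ k
  rcases h with (⟨a, b, d, e⟩ | ⟨a, b, d, e⟩) | ⟨a, b, d, e⟩
  · have := nle (w := w) (a := 4) (b := 1) (by linarith) b.le (by linarith) (by linarith)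
    exact ⟨a, by linarith, by linarith, by linarith, Or.inl (by linarith), Or.inr ⟨d, e⟩,
      Or.inr (by linarith)⟩
  · exact ⟨by linarith, b, d, by linarith, Or.inl e, Or.inl a, Or.inl a⟩
  · exact ⟨by linarith, b, d, e, Or.inr a, Or.inl (by linarith), Or.inl (by linarith)⟩

noncomputable def a (k : ℕ) : ℂ := ⟨3, t k⟩

theorem W_sep {j k : ℕ} (hjk : j ≠ k) {w : ℂ} (h : w ∈ W j) :
    w ∉ W k ∧ 2 / 5 * t k ≤ ‖w - a k‖ := by
  obtain ⟨a1, a2, a3, a4, a5, -⟩ := W_a h
  have := t_pos k; have := t_le k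
  have i1 := abs_im_le_norm (w - a k)
  have i2 := abs_re_le_norm (w - a k)
  simp only [a, sub_im, sub_re] at i1 i2
  have i3 := abs_le.1 i1
  have i4 := abs_le.1 i2
  rcases lt_or_gt_of_ne hjk with hh | hh
  · have := t_lt hh
    have := X_mono (show j + 1 ≤ k from hh)
    refine ⟨fun h' => ?_, by simp only [a]; linarith⟩
    obtain ⟨-, -, -, -, b | b, -⟩ := W_a h' <;> linarith
  · have := t_lt hh
    have := X_mono (show k + 1 ≤ j from hh)
    have := X_ge j
    refine ⟨fun h' => ?_, by simp only [a]; rcases a5 with b | b <;> linarith⟩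
    obtain ⟨-, b1, b2, -⟩ := W_a h'
    rcases a5 with b | b <;> linarith

noncomputable def E (k : ℕ) (w : ℂ) : ℂ := 1 - eta k * I / (w - a k)

theorem E_im (k : ℕ) (w : ℂ) :
    (E k w).im = eta k * (3 - w.re) / normSq (w - a k) := by
  simp [E, div_im, a]; ring

theorem E_re (k : ℕ) (w : ℂ) :
    (E k w).re = 1 - eta k * (w.im - t k) / normSq (w - a k) := by
  simp [E, div_re, a]

theorem E_pos {k : ℕ} {w : ℂ} (h : w.re < 3) : w - a k ≠ 0 ∧ 0 < (E k w).im := by
  have h0 : w - a k ≠ 0 := fun hh => by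
    have := congrArg re hh
    simp [a] at this; linarith
  have := normSq_pos.2 h0
  have := eta_pos k
  have : 0 < 3 - w.re := by linarith
  exact ⟨h0, by rw [E_im]; positivity⟩

theorem E_neg {k : ℕ} {w : ℂ} (h : 3 < w.re) : w - a k ≠ 0 ∧ (E k w).im < 0 := by
  have h0 : w - a k ≠ 0 := fun hh => by
    have := congrArg re hh
    simp [a] at this; linarith
  have := normSq_pos.2 h0
  have := eta_pos k
  refine ⟨h0, ?_⟩
  rw [E_im]
  exact div_neg_of_neg_of_pos (mul_neg_of_pos_of_neg this (by linarith)) (by assumption)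

theorem E_arg (k : ℕ) (w : ℂ) : |arg (E k w)| ≤ 7 * eta k / ‖w - a k‖ := by
  have e : ‖-(eta k * I / (w - a k))‖ = eta k / ‖w - a k‖ := by
    simp [abs_of_pos (eta_pos k)]
  rw [mul_div_assoc, ← e, E, sub_eq_add_neg]
  generalize -(eta k * I / (w - a k)) = x
  by_cases h : ‖x‖ ≤ 1 / 2
  · have h1 := norm_log_one_add_half_le_self h
    have h2 := abs_im_le_norm (log (1 + x))
    rw [log_im] at h2
    linarith [norm_nonneg x]
  · linarith [abs_arg_le_pi (1 + x), pi_lt_d2]

open Classical in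
noncomputable def H (k : ℕ) (w : ℂ) : ℂ :=
  if w ∈ W k then π - I * log (-E k w) else -I * log (E k w)

theorem H_left {k : ℕ} {w : ℂ} (h : w.re < 3) :
    π - I * log (-E k w) = -I * log (E k w) := by
  have := arg_neg_eq_arg_sub_pi_of_im_pos (E_pos (k := k) h).2
  simp only [Complex.log, norm_neg, this]
  push_cast
  linear_combination (π : ℂ) * I_mul_I

theorem E_diff {k : ℕ} {w : ℂ} (h : w - a k ≠ 0) : DifferentiableAt ℂ (E k) w := by
  unfold E
  fun_prop (disch := exact h)

theorem H_diff (k : ℕ) : DifferentiableOn ℂ (H k) D2 := by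
  intro w hw
  refine DifferentiableAt.differentiableWithinAt ?_
  have := eta_pos k; have := eta_le k; have := t_pos k
  by_cases h : w ∈ W k
  · have h1 : w - a k ≠ 0 ∧ -E k w ∈ slitPlane := by
      rcases lt_trichotomy w.re 3 with b | b | b
      · exact ⟨(E_pos b).1, Or.inr (by simpa using (E_pos b).2.ne')⟩
      · obtain ⟨-, -, -, -, -, b' | b', -⟩ := W_a h
        · linarith
        have e : normSq (w - a k) = (w.im - t k) ^ 2 := by
          simp [normSq_apply, a, b, sq]
        refine ⟨fun hh => ?_, Or.inl ?_⟩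
        · have := congrArg im hh
          simp [a] at this; linarith
        · have h2 : 0 < w.im - t k := by linarith
          rw [neg_re, E_re, e, neg_pos, sub_neg, one_lt_div (by positivity)]
          nlinarith
      · exact ⟨(E_neg b).1, Or.inr (by simpa using (E_neg b).2.ne)⟩
    have h2 : DifferentiableAt ℂ (fun w => π - I * log (-E k w)) w :=
      (((E_diff h1.1).neg.clog h1.2).const_mul I).const_sub _
    refine h2.congr_of_eventuallyEq ?_
    filter_upwards [(W_open k).mem_nhds h] with z hz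
    simp only [H, if_pos hz]
  · obtain ⟨j, hj⟩ := mem_iUnion.1 hw
    have h1 : (w - a k ≠ 0 ∧ E k w ∈ slitPlane) ∧ ∀ᶠ z in nhds w, H k z = -I * log (E k z) := by
      rcases hj with hj | hj
      · refine ⟨⟨(E_pos hj.2.1).1, Or.inr (E_pos hj.2.1).2.ne'⟩, ?_⟩
        filter_upwards [(box_open _ _ _ _).mem_nhds hj] with z hz
        simp only [H, H_left hz.2.1, ite_self]
      · have hjk : j ≠ k := fun hh => h (hh ▸ hj)
        have h3 := (W_sep hjk hj).2
        refine ⟨⟨norm_pos_iff.1 (by linarith), ?_⟩, ?_⟩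
        · rw [E, sub_eq_add_neg]
          refine mem_slitPlane_of_norm_lt_one ?_
          simp only [norm_neg, norm_div, norm_mul, norm_real, norm_I, mul_one, norm_eq_abs,
            abs_of_pos (eta_pos k)]
          rw [div_lt_one (by linarith)]
          linarith
        · filter_upwards [(W_open j).mem_nhds hj] with z hz
          simp only [H, if_neg (W_sep hjk hz).1]
    exact (((E_diff h1.1.1).clog h1.1.2).const_mul (-I)).congr_of_eventuallyEq h1.2

theorem H_re_in {k : ℕ} {w : ℂ} (h : w ∈ W k) : (H k w).re = π + arg (-E k w) := by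
  simp [H, h, log_im]

theorem H_re_out {k : ℕ} {w : ℂ} (h : w ∉ W k) : (H k w).re = arg (E k w) := by
  simp [H, h, log_im]

theorem A_arg {k : ℕ} {w : ℂ} {ρ : ℝ} (hρ : 0 < ρ) (h : ρ * t k ≤ ‖w - a k‖) :
    A k * |arg (E k w)| ≤ 7 / 5 / ρ * t k := by
  have := t_pos k; have := A_ge k; have := eta_pos k
  calc _ ≤ A k * (7 * eta k / (ρ * t k)) := by
        gcongr
        exact (E_arg k w).trans (by gcongr)
    _ = 7 * (A k * eta k) / (ρ * t k) := by ring
    _ = _ := by rw [A_eta]; field_simp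

theorem H_low {k : ℕ} {w : ℂ} (hw : w ∈ D2) : 0 ≤ A k * (H k w).re + 7 / 2 * t k := by
  have := t_pos k; have := A_ge k
  by_cases h : w ∈ W k
  · have : 0 ≤ (H k w).re := by rw [H_re_in h]; linarith [neg_pi_lt_arg (-E k w)]
    positivity
  · rw [H_re_out h]
    obtain ⟨j, hj | hj⟩ := mem_iUnion.1 hw
    · have := arg_nonneg_iff.2 (E_pos (k := k) hj.2.1).2.le
      positivity
    · have h1 := A_arg (by norm_num) (W_sep (fun hh : j = k => h (hh ▸ hj)) hj).2
      have := neg_abs_le (arg (E k w))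
      nlinarith

noncomputable def Phi (N : ℕ) (w : ℂ) : ℂ :=
  rexp 6 + ∑ k ∈ Finset.range N, (A k * H k w + (7 / 2 * t k : ℝ))

theorem Phi_re (N : ℕ) (w : ℂ) :
    (Phi N w).re = rexp 6 + ∑ k ∈ Finset.range N, (A k * (H k w).re + 7 / 2 * t k) := by
  simp only [Phi, add_re, ofReal_re, re_sum, re_ofReal_mul]

theorem Phi_low {N j : ℕ} (hj : j < N) {w : ℂ} (h : w ∈ C0 ∪ W j) :
    rexp ‖w‖ ≤ (Phi N w).re := by
  have hw : w ∈ D2 := mem_iUnion.2 ⟨j, h⟩
  have h1 := Finset.single_le_sum (f := fun k => A k * (H k w).re + 7 / 2 * t k)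
    (fun k _ => H_low hw) (Finset.mem_range.2 hj)
  have h2 := H_low (k := j) hw
  rw [Phi_re]
  have h6 : ‖w‖ ≤ 6 → rexp ‖w‖ ≤ rexp 6 + ∑ k ∈ Finset.range N,
      (A k * (H k w).re + 7 / 2 * t k) := fun hh => by linarith [exp_le_exp.2 hh]
  rcases h with h | h
  · exact h6 ((nle h.1 h.2.1.le h.2.2.1 h.2.2.2).trans (by norm_num))
  obtain ⟨a1, a2, a3, a4, -, -, b | b⟩ := W_a h
  · have := t_pos j; have := X_ge (j + 1); have := A_ge j
    have h3 := nle (w := w) (by linarith) a2.le (by linarith) a4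
    have h4 : rexp ‖w‖ ≤ A j := exp_le_exp.2 (by linarith)
    have h5 : 0 ≤ arg (-E j w) := arg_nonneg_iff.2 (by simpa using (E_neg b).2.le)
    rw [H_re_in h] at h1
    have := exp_pos 6
    nlinarith [pi_gt_three]
  · exact h6 b

theorem Phi_up {w : ℂ} (hw : w ∈ D2) : ∃ B : ℝ, ∀ N, (Phi N w).re ≤ B := by
  obtain ⟨j, ρ, hρ, h⟩ : ∃ j ρ, 0 < ρ ∧ ∀ k ≠ j, w ∉ W k ∧ ρ * t k ≤ ‖w - a k‖ := by
    by_cases h : ∃ j, w ∈ W j
    · obtain ⟨j, hj⟩ := h
      exact ⟨j, 2 / 5, by norm_num, fun k hk => W_sep hk.symm hj⟩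
    · obtain ⟨j, hj | hj⟩ := mem_iUnion.1 hw
      · have h3 : w.re < 3 := hj.2.1
        refine ⟨0, 3 - w.re, by linarith, fun k _ => ⟨fun hh => h ⟨k, hh⟩, ?_⟩⟩
        have i2 := (abs_le.1 (abs_re_le_norm (w - a k))).1
        simp only [a, sub_re] at i2
        have := t_pos k; have := t_le k
        simp only [a]
        nlinarith
      · exact (h ⟨j, hj⟩).elim
  refine ⟨rexp 6 + (|A j * (H j w).re| + (7 / 5 / ρ + 7 / 2)), fun N => ?_⟩
  rw [Phi_re]
  gcongr
  calc _ ≤ ∑ k ∈ Finset.range N, ((if k = j then |A j * (H j w).re| else 0) +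
        (7 / 5 / ρ + 7 / 2) * t k) := by
        refine Finset.sum_le_sum fun k _ => ?_
        have := t_pos k; have := A_ge k
        have : 0 ≤ 7 / 5 / ρ * t k := by positivity
        split_ifs with hk
        · subst hk
          linarith [le_abs_self (A k * (H k w).re)]
        · have h1 := A_arg hρ (h k hk).2
          rw [H_re_out (h k hk).1]
          have := le_abs_self (arg (E k w))
          nlinarith
    _ ≤ _ := by
        rw [Finset.sum_add_distrib, ← Finset.mul_sum, Finset.sum_ite_eq']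
        have := t_sum N
        have : 0 ≤ 7 / 5 / ρ + 7 / 2 := by positivity
        gcongr
        · split_ifs
          exacts [le_rfl, abs_nonneg _]
        · nlinarith

theorem D2_H {f : ℂ → ℂ} (hf : f ∈ Hol D2) {p : ℝ} (hp : 0 < p) : InH p f := by
  obtain ⟨B, hB⟩ := Phi_up (hf.2 (mem_ball_self one_pos))
  set n := ⌈p⌉₊
  refine ⟨2 * π * (1 + n.factorial * B), fun r hr => ?_⟩
  have hc := cont_cm hf.1.continuousOn hr.1 hr.2
  obtain ⟨N, hN⟩ : ∃ N, ∀ θ : ℝ, ∃ j < N, f (circleMap 0 r θ) ∈ C0 ∪ W j := by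
    have hs : sphere (0 : ℂ) r ⊆ ball 0 1 := sphere_subset_closedBall.trans
      (closedBall_subset_ball hr.2)
    have hK := (isCompact_sphere (0 : ℂ) r).image_of_continuousOn (hf.1.continuousOn.mono hs)
    obtain ⟨s, hs'⟩ := hK.elim_finite_subcover (fun j => C0 ∪ W j)
      (fun j => (box_open _ _ _ _).union (W_open j))
      (by rintro _ ⟨z, hz, rfl⟩; exact hf.2 (hs hz))
    refine ⟨s.sup id + 1, fun θ => ?_⟩
    obtain ⟨j, hj, h⟩ := mem_iUnion₂.1 (hs' ⟨_, circleMap_mem_sphere 0 hr.1.le θ, rfl⟩)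
    exact ⟨j, Nat.lt_succ_of_le (Finset.le_sup (f := id) hj), h⟩
  have hd : DifferentiableOn ℂ (fun z => Phi N (f z)) (ball 0 1) := by
    refine DifferentiableOn.comp (g := Phi N) (t := D2) ?_ hf.1 hf.2
    unfold Phi
    exact (DifferentiableOn.fun_sum fun k _ => ((H_diff k).const_mul _).add_const _).const_add _
  have hc2 := cont_cm hd.continuousOn hr.1 hr.2
  have hc3 := (continuous_re.comp hc2).const_mul (n.factorial : ℝ)
  have h1 := congrArg re (mv hd hr.1 hr.2)
  rw [re_ofReal_mul] at h1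
  have h2 := intervalIntegral.intervalIntegral_re (hc2.intervalIntegrable (μ := volume) 0 (2 * π))
  simp only [RCLike.re_to_complex] at h2
  calc _ ≤ ∫ θ in (0 : ℝ)..2 * π, (1 + n.factorial * (Phi N (f (circleMap 0 r θ))).re) := by
        have e : ∀ θ : ℝ, r * cexp (θ * I) = circleMap 0 r θ := fun θ => by simp [circleMap]
        simp only [e]
        refine intervalIntegral.integral_mono_on (by positivity)
          ((hc.norm.rpow_const fun _ => Or.inr hp.le).intervalIntegrable _ _)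
          ((hc3.const_add 1).intervalIntegrable _ _) fun θ _ => ?_
        obtain ⟨j, hj, h⟩ := hN θ
        have h3 := Phi_low hj h
        generalize f (circleMap 0 r θ) = w at *
        have h4 := Real.pow_div_factorial_le_exp ‖w‖ (norm_nonneg w) n
        have h5 : (0 : ℝ) < n.factorial := by positivity
        rw [div_le_iff₀ h5] at h4
        have h6 : ‖w‖ ^ p ≤ 1 + ‖w‖ ^ n := by
          rcases le_total ‖w‖ 1 with hh | hh
          · have := rpow_le_one (norm_nonneg w) hh hp.le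
            have : 0 ≤ ‖w‖ ^ n := by positivity
            linarith
          · have := rpow_le_rpow_of_exponent_le hh (Nat.le_ceil p)
            rw [rpow_natCast] at this
            linarith
        nlinarith
    _ = 2 * π * (1 + n.factorial * (Phi N (f 0)).re) := by
        rw [intervalIntegral.integral_add (by simp)
          (by exact hc3.intervalIntegrable _ _),
          intervalIntegral.integral_const_mul, h2, h1]
        simp; ring
    _ ≤ _ := by gcongr; exact hB N

end Pool.Agent.H.MP_1ae38f_an
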