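import Pool.Agent.H.MP_1ae38f_an.B

namespace Pool.Agent.H.MP_1ae38f_an

open Set Metric MeasureTheory Complex Real
open scoped ComplexConjugate

noncomputable def ze (k : ℕ) : ℂ := ⟨√(1 - t k ^ 2), t k⟩
noncomputable def rho (k : ℕ) : ℝ := 1 - mu k (X k) ^ 4
noncomputable def s (k : ℕ) (z : ℂ) : ℂ := 1 - rho k * conj (ze k) * z
noncomputable def bb (k : ℕ) (z : ℂ) : ℂ := eps k (X k) * (1 + I) * cexp (-log (s k z) / 2)
noncomputable def GG (k : ℕ) (z : ℂ) : ℂ := c k * -log (s k z) + bb k z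
noncomputable def g (k : ℕ) (z : ℂ) : ℂ := (1 - z) / (1 - ze k) * GG k z
noncomputable def ff (z : ℂ) : ℂ := z + ∑' k, g k z

theorem ze_sq (k : ℕ) : √(1 - t k ^ 2) ^ 2 = 1 - t k ^ 2 :=
  sq_sqrt (by have := t_pos k; have := t_le k; nlinarith)

theorem ze_norm (k : ℕ) : ‖ze k‖ = 1 := by
  have : ‖ze k‖ ^ 2 = 1 := by
    rw [← normSq_eq_norm_sq, normSq_apply]; have := ze_sq k; simp only [ze]; nlinarith
  nlinarith [norm_nonneg (ze k)]

theorem ze_lo (k : ℕ) : t k ≤ ‖1 - ze k‖ := by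
  have := abs_im_le_norm (1 - ze k)
  simpa [ze, abs_of_pos (t_pos k)] using this

theorem ze_hi (k : ℕ) : ‖1 - ze k‖ ≤ 2 * t k := by
  have h1 := norm_le_abs_re_add_abs_im (1 - ze k)
  have := t_pos k; have := t_le k
  have h2 : 1 - t k ≤ √(1 - t k ^ 2) := le_sqrt_of_sq_le (by nlinarith)
  have h3 : √(1 - t k ^ 2) ≤ 1 := sqrt_le_one.2 (by nlinarith)
  simp only [ze, sub_re, one_re, sub_im, one_im, zero_sub, abs_neg, abs_of_pos (t_pos k)] at h1
  rw [abs_of_nonneg (by linarith)] at h1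
  simp only [ze]
  linarith

theorem eps_le (k : ℕ) (x : ℝ) : eps k x ≤ c k := min_le_left _ _

theorem c_le (k : ℕ) : c k ≤ t k / 100 := by
  have := t_pos k; have := t_le k
  have : t k ^ 2 ≤ 1 := by nlinarith
  unfold c; nlinarith

theorem mu4 (k : ℕ) : mu k (X k) ^ 4 < t k / 10 := by
  have h0 := mu_pos k (X k)
  have := t_pos k; have := t_le k; have := c_le k; have := eps_le k (X k)
  have := eps_pos k (X k)
  have h1 : mu k (X k) ≤ eps k (X k) := by
    unfold mu
    exact div_le_self this.le (by have : (0 : ℝ) ≤ k := k.cast_nonneg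
                                  linarith)
  have := pow_le_of_le_one h0.le (by linarith) (show 4 ≠ 0 by norm_num)
  linarith

theorem rho_b (k : ℕ) : 0 < rho k ∧ rho k < 1 := by
  have := mu4 k; have := t_le k; have := pow_pos (mu_pos k (X k)) 4
  unfold rho; constructor <;> linarith

theorem s_b (k : ℕ) {z : ℂ} (hz : ‖z‖ < 1) : 0 < (s k z).re ∧ ‖s k z‖ ≤ 2 ∧
    1 - rho k ≤ ‖s k z‖ ∧ 1 - ‖z‖ ≤ ‖s k z‖ ∧ ‖ze k - z‖ ≤ 2 * ‖s k z‖ := by
  obtain ⟨r0, r1⟩ := rho_b k
  have e : ‖rho k * conj (ze k) * z‖ = rho k * ‖z‖ := by simp [ze_norm, abs_of_pos r0]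
  have n := norm_nonneg z
  have h1 := re_le_norm (rho k * conj (ze k) * z)
  have h2 := norm_sub_le 1 (rho k * conj (ze k) * z)
  have h3 := norm_sub_norm_le 1 (rho k * conj (ze k) * z)
  rw [e] at h1 h2 h3
  rw [norm_one, ← s] at h2 h3
  have h4 : 1 - rho k ≤ ‖s k z‖ := by nlinarith
  refine ⟨by rw [s, sub_re, one_re]; nlinarith, by nlinarith, h4, by nlinarith, ?_⟩
  have h5 : ze k - z = ze k * s k z - ((1 - rho k : ℝ) : ℂ) * z := by
    have := mul_conj' (ze k)
    rw [ze_norm] at this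
    rw [s]; push_cast at this ⊢; linear_combination (rho k * z) * this
  have h6 := norm_sub_le (ze k * s k z) (((1 - rho k : ℝ) : ℂ) * z)
  rw [← h5, norm_mul, norm_mul, ze_norm, norm_real, norm_eq_abs, abs_of_pos (by linarith)] at h6
  nlinarith

theorem bb_norm (k : ℕ) (z : ℂ) :
    ‖bb k z‖ ≤ 2 * eps k (X k) * rexp (-Real.log ‖s k z‖ / 2) := by
  have h1 : ‖1 + I‖ ≤ 2 := (norm_add_le _ _).trans (by simp; norm_num)
  have := eps_pos k (X k)
  rw [bb, norm_mul, norm_mul, norm_real, norm_eq_abs, abs_of_pos this, norm_exp]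
  simp only [div_ofNat_re, neg_re, log_re]
  have := exp_pos (-Real.log ‖s k z‖ / 2)
  nlinarith [mul_pos this (eps_pos k (X k))]

theorem bb_pos (k : ℕ) {z : ℂ} (hz : ‖z‖ < 1) : 0 ≤ (bb k z).re ∧ 0 ≤ (bb k z).im := by
  have h1 := abs_le.1 (abs_arg_le_pi_div_two_iff.2 (s_b k hz).1.le)
  set φ := (-log (s k z) / 2).im with hφ
  have h2 : φ = -arg (s k z) / 2 := by simp [hφ, log_im]
  have h3 : 0 ≤ Real.cos φ := cos_nonneg_of_mem_Icc ⟨by linarith [pi_pos], by linarith [pi_pos]⟩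
  have h4 : 0 ≤ Real.cos (2 * φ) := cos_nonneg_of_mem_Icc ⟨by linarith, by linarith⟩
  rw [Real.cos_two_mul'] at h4
  have h5 := abs_le_of_sq_le_sq' (show Real.sin φ ^ 2 ≤ Real.cos φ ^ 2 by linarith) h3
  have h6 := mul_pos (eps_pos k (X k)) (exp_pos (-log (s k z) / 2).re)
  simp only [bb, mul_re, mul_im, ofReal_re, ofReal_im, add_re, add_im, one_re, one_im, I_re, I_im,
    exp_re, exp_im, ← hφ]
  constructor <;> nlinarith

theorem GG_norm (k : ℕ) {z : ℂ} (hz : ‖z‖ < 1) : ‖GG k z‖ ≤ 3 * c k * (3 + 1 / ‖s k z‖) := by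
  obtain ⟨h1, h2, -, h3, -⟩ := s_b k hz
  have h0 : 0 < ‖s k z‖ := by linarith
  have h4 := bb_norm k z
  have h5 := norm_le_abs_re_add_abs_im (log (s k z))
  rw [log_re, log_im] at h5
  have h6 := abs_arg_le_pi_div_two_iff.2 h1.le
  have h7 : |Real.log ‖s k z‖| ≤ 1 + 1 / ‖s k z‖ := by
    have a1 := log_le_sub_one_of_pos h0
    have a2 := one_sub_inv_le_log_of_pos h0
    have a3 := inv_pos.2 h0
    rw [one_div, abs_le]; constructor <;> linarith
  have h8 : rexp (-Real.log ‖s k z‖ / 2) ≤ 1 + 1 / ‖s k z‖ := by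
    have a1 : rexp (-Real.log ‖s k z‖ / 2) ^ 2 = 1 / ‖s k z‖ := by
      rw [← Real.exp_nat_mul, show ((2 : ℕ) : ℝ) * (-Real.log ‖s k z‖ / 2) =
        -Real.log ‖s k z‖ by push_cast; ring, Real.exp_neg, Real.exp_log h0, one_div]
    nlinarith
  have := c_pos k; have := eps_le k (X k); have := eps_pos k (X k)
  have h9 : 0 < 1 / ‖s k z‖ := by positivity
  refine (norm_add_le _ _).trans ?_
  rw [norm_mul, norm_neg, norm_real, norm_eq_abs, abs_of_pos (c_pos k)]
  have a1 : ‖log (s k z)‖ ≤ 3 + 1 / ‖s k z‖ := by linarith [pi_lt_four]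
  have a2 : eps k (X k) * rexp (-Real.log ‖s k z‖ / 2) ≤ c k * (1 + 1 / ‖s k z‖) := by gcongr
  nlinarith

theorem g_norm (k : ℕ) {z : ℂ} (hz : ‖z‖ < 1) (u : ℂ) :
    ‖u / (1 - ze k) * GG k z‖ ≤ ‖u‖ * (3 * t k ^ 2 / 10000 * (3 + 1 / ‖s k z‖)) := by
  have := t_pos k; have := ze_lo k
  rw [norm_mul, norm_div]
  calc _ ≤ ‖u‖ / t k * (3 * c k * (3 + 1 / ‖s k z‖)) := by gcongr; exact GG_norm k hz
    _ = _ := by unfold c; field_simp

theorem g_far (k : ℕ) {z : ℂ} (hz : ‖z‖ < 1) (h : t k / 10 ≤ ‖ze k - z‖) :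
    ‖g k z‖ ≤ ‖1 - z‖ * (7 / 1000) * t k := by
  refine (g_norm k hz _).trans ?_
  have := t_pos k; have := t_le k
  have h1 := (s_b k hz).2.2.2.2
  have h2 : 1 / ‖s k z‖ ≤ 20 / t k := by
    rw [div_le_div_iff₀ (by linarith) (by linarith)]; linarith
  rw [mul_assoc]
  refine mul_le_mul_of_nonneg_left ?_ (norm_nonneg _)
  calc _ ≤ 3 * t k ^ 2 / 10000 * (3 + 20 / t k) := by gcongr
    _ = (9 * t k + 60) / 10000 * t k := by field_simp; ring
    _ ≤ _ := mul_le_mul_of_nonneg_right (by linarith) (by linarith)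

theorem g_err (k : ℕ) {z : ℂ} (hz : ‖z‖ < 1) : ‖g k z - GG k z‖ ≤ t k / 100 := by
  have := t_pos k; have := t_le k; have := ze_lo k
  have h0 : 1 - ze k ≠ 0 := norm_pos_iff.1 (by linarith)
  have e : g k z - GG k z = (ze k - z) / (1 - ze k) * GG k z := by rw [g]; field_simp; ring
  obtain ⟨-, h2, -, h3, h4⟩ := s_b k hz
  have h5 : 0 < ‖s k z‖ := by linarith
  rw [e]
  refine (g_norm k hz _).trans ?_
  calc _ ≤ 2 * ‖s k z‖ * (3 * t k ^ 2 / 10000 * (3 + 1 / ‖s k z‖)) := by gcongr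
    _ = 6 * t k / 10000 * (3 * ‖s k z‖ + 1) * t k := by field_simp; ring
    _ ≤ 1 / 100 * t k := by gcongr; nlinarith
    _ = _ := by ring

theorem t_has : HasSum t 1 := by
  have := hasSum_geometric_two.mul_right (1 / 2 : ℝ)
  rw [show (2 : ℝ) * (1 / 2) = 1 by norm_num] at this
  exact this

theorem g_in (k : ℕ) {z : ℂ} {r : ℝ} (hr : r < 1) (hz : ‖z‖ ≤ r) :
    ‖g k z‖ ≤ (3 + 1 / (1 - r)) * t k := by
  have hz1 : ‖z‖ < 1 := by linarith
  refine (g_norm k hz1 _).trans ?_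
  have := t_pos k; have := t_le k
  have h1 := (s_b k hz1).2.2.2.1
  have h2 : ‖1 - z‖ ≤ 2 := (norm_sub_le _ _).trans (by rw [norm_one]; linarith)
  have h3 : 0 < 1 - r := by linarith
  calc _ ≤ 2 * (3 * t k ^ 2 / 10000 * (3 + 1 / (1 - r))) := by gcongr; linarith
    _ = (3 + 1 / (1 - r)) * (6 * t k / 10000 * t k) := by ring
    _ ≤ _ := by gcongr; nlinarith

theorem ff_diff : DifferentiableOn ℂ ff (ball 0 1) := by
  intro z hz
  obtain ⟨r, h1, h2⟩ := exists_between (mem_ball_zero_iff.1 hz)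
  have h : DifferentiableOn ℂ (fun z => ∑' k, g k z) (ball 0 r) := by
    refine differentiableOn_tsum_of_summable_norm (t_has.summable.mul_left _) (fun k w hw => ?_)
      isOpen_ball fun k w hw => g_in k h2 (mem_ball_zero_iff.1 hw).le
    have h3 : s k w ∈ slitPlane := Or.inl (s_b k ((mem_ball_zero_iff.1 hw).trans h2)).1
    have h4 : DifferentiableAt ℂ (fun z => log (s k z)) w :=
      DifferentiableAt.clog (by unfold s; fun_prop) h3
    refine DifferentiableAt.differentiableWithinAt ?_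
    unfold g GG bb
    fun_prop
  exact (differentiableAt_id.add (h.differentiableAt
    (isOpen_ball.mem_nhds (mem_ball_zero_iff.2 h1)))).differentiableWithinAt

theorem ff_near (k : ℕ) {z : ℂ} (hz : ‖z‖ < 1) (h : ‖ze k - z‖ < t k / 10) :
    ‖ff z - GG k z - ze k‖ ≤ t k / 8 := by
  have hs : Summable fun j => g j z :=
    Summable.of_norm_bounded (t_has.summable.mul_left _) fun j => g_in j hz le_rfl
  have := t_pos k
  have h1 : ‖∑' j, ite (j = k) 0 (g j z)‖ ≤ ‖1 - z‖ * (7 / 1000) * 1 := by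
    refine tsum_of_norm_bounded (t_has.mul_left _) fun j => ?_
    have := t_pos j
    split_ifs with hj
    · rw [norm_zero]; positivity
    · refine g_far j hz ?_
      have a1 := abs_le.1 (abs_im_le_norm (ze j - z))
      have a2 := abs_le.1 (abs_im_le_norm (ze k - z))
      simp only [sub_im, show ∀ i, (ze i).im = t i from fun _ => rfl] at a1 a2
      rcases lt_or_gt_of_ne hj with hh | hh <;> have := t_lt hh <;> linarith
  have h2 : ‖1 - z‖ ≤ ‖1 - ze k‖ + ‖ze k - z‖ := norm_sub_le_norm_sub_add_norm_sub _ _ _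
  have h3 := ze_hi k
  have h4 := g_err k hz
  have e : ff z - GG k z - ze k = (g k z - GG k z) + ∑' j, ite (j = k) 0 (g j z) - (ze k - z) := by
    rw [ff, hs.tsum_eq_add_tsum_ite k]; ring
  rw [e]
  have := (norm_sub_le _ (ze k - z)).trans (add_le_add_left (norm_add_le (g k z - GG k z)
    (∑' j, ite (j = k) 0 (g j z))) _)
  linarith

theorem ff_parts (k : ℕ) {z : ℂ} (hz : ‖z‖ < 1) (h : ‖ze k - z‖ < t k / 10) :
    |(ff z).re - (bb k z).re - c k * -Real.log ‖s k z‖| ≤ 2 ∧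
      |(ff z).im - (bb k z).im - t k| ≤ 3 / 20 * t k := by
  have h1 := ff_near k hz h
  have a1 := abs_le.1 (abs_re_le_norm (ff z - GG k z - ze k))
  have a2 := abs_le.1 (abs_im_le_norm (ff z - GG k z - ze k))
  have a3 := abs_le.1 (abs_re_le_norm (ze k))
  have a4 := abs_le.1 (abs_arg_le_pi_div_two_iff.2 (s_b k hz).1.le)
  rw [ze_norm] at a3
  have := t_pos k; have := t_le k; have := c_le k; have := c_pos k
  simp only [GG, sub_re, sub_im, add_re, add_im, re_ofReal_mul, im_ofReal_mul, neg_re, neg_im,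
    log_re, log_im, show (ze k).im = t k from rfl] at a1 a2 h1
  have a5 : |c k * -arg (s k z)| ≤ 2 * c k := by
    rw [abs_le]; constructor <;> nlinarith [pi_lt_four]
  have a6 := abs_le.1 a5
  constructor <;> rw [abs_le] <;> constructor <;> linarith

theorem ff_maps : MapsTo ff (ball 0 1) D1 := by
  intro z hz
  rw [mem_ball_zero_iff] at hz
  by_cases h : ∃ k, ‖ze k - z‖ < t k / 10
  · obtain ⟨k, h⟩ := h
    obtain ⟨p1, p2⟩ := ff_parts k hz h
    obtain ⟨b1, b2⟩ := bb_pos k hz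
    obtain ⟨-, s2, s3, s4, -⟩ := s_b k hz
    rw [abs_le] at p1 p2
    have := t_pos k; have := t_le k; have := c_le k; have hc := c_pos k
    have s0 : 0 < ‖s k z‖ := by linarith
    have hn : ‖ff z‖ < X (k + 1) := by
      have a1 := ff_near k hz h
      have a2 := GG_norm k hz
      have a3 : ‖ff z‖ ≤ ‖ff z - GG k z - ze k‖ + ‖GG k z‖ + ‖ze k‖ := by
        refine le_trans (le_of_eq ?_) (norm_add₃_le)
        congr 1; ring
      have a4 : 1 / ‖s k z‖ ≤ 1 / mu k (X k) ^ 4 := by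
        have := mu_pos k (X k)
        gcongr
        simpa [rho] using s3
      rw [ze_norm] at a3
      have := X_ge k
      rw [X]; nlinarith
    have n1 := (re_le_norm _).trans_lt hn
    have n2 := (im_le_norm _).trans_lt hn
    refine mem_iUnion.2 ⟨k, ?_⟩
    by_cases hb : ‖bb k z‖ < t k / 20
    · have := im_le_norm (bb k z)
      by_cases h3 : (ff z).re < 3
      · have := log_le_sub_one_of_pos s0
        exact Or.inl ⟨by nlinarith, h3, by linarith, by linarith⟩
      · exact Or.inr (Or.inl ⟨by linarith, n1, by linarith, by linarith⟩)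
    · refine Or.inr (Or.inr ⟨?_, n1, by linarith, n2⟩)
      have a1 := (not_lt.1 hb).trans (bb_norm k z)
      have a2 : eps k (X k) ≤ t k / 40 * rexp (-(X k + 2) / (2 * c k)) := min_le_right _ _
      have a3 : 1 ≤ rexp (-(X k + 2) / (2 * c k) + -Real.log ‖s k z‖ / 2) := by
        rw [Real.exp_add]
        have := exp_pos (-Real.log ‖s k z‖ / 2)
        nlinarith
      rw [one_le_exp_iff] at a3
      have a4 : c k * (-(X k + 2) / (2 * c k)) = -(X k + 2) / 2 := by field_simp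
      have a5 := mul_nonneg hc.le a3
      have a6 := abs_le.1 (abs_re_le_norm (ff z - GG k z - ze k))
      have a7 := ff_near k hz h
      have a8 := abs_le.1 (abs_re_le_norm (ze k))
      rw [ze_norm] at a8
      simp only [GG, sub_re, add_re, re_ofReal_mul, neg_re, log_re] at a6 a7
      nlinarith
  · push Not at h
    have h1 : ‖∑' j, g j z‖ ≤ ‖1 - z‖ * (7 / 1000) * 1 :=
      tsum_of_norm_bounded (t_has.mul_left _) fun j => g_far j hz (h j)
    have h2 : ‖1 - z‖ ≤ 2 := (norm_sub_le _ _).trans (by rw [norm_one]; linarith)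
    have h3 : ‖ff z‖ ≤ 2 := (norm_add_le _ _).trans (by linarith)
    have a1 := abs_le.1 (abs_re_le_norm (ff z))
    have a2 := abs_le.1 (abs_im_le_norm (ff z))
    exact mem_iUnion.2 ⟨0, Or.inl ⟨by linarith, by linarith, by linarith, by linarith⟩⟩

theorem ff_big (k : ℕ) : (k + 1) / mu k (X k) ≤ ‖ff (rho k * ze k)‖ := by
  obtain ⟨r0, r1⟩ := rho_b k
  have hm := mu_pos k (X k)
  have hz : ‖(rho k : ℂ) * ze k‖ < 1 := by simpa [ze_norm, abs_of_pos r0] using r1
  have h : ‖ze k - rho k * ze k‖ < t k / 10 := by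
    rw [show ze k - rho k * ze k = ((1 - rho k : ℝ) : ℂ) * ze k by push_cast; ring, norm_mul,
      ze_norm, norm_real, norm_eq_abs, abs_of_pos (by linarith), rho]
    linarith [mu4 k]
  have p2 := abs_le.1 (ff_parts k hz h).2
  have hs : s k (rho k * ze k) = ((1 - rho k ^ 2 : ℝ) : ℂ) := by
    have := mul_conj' (ze k)
    rw [ze_norm] at this
    rw [s]; push_cast at this ⊢; linear_combination (-(rho k : ℂ) ^ 2) * this
  have h0 : 0 < 1 - rho k ^ 2 := by nlinarith
  have h1 : (bb k (rho k * ze k)).im = eps k (X k) * rexp (-Real.log (1 - rho k ^ 2) / 2) := by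
    rw [bb, hs, ← ofReal_log h0.le, show -((Real.log (1 - rho k ^ 2) : ℝ) : ℂ) / 2 =
      ((-Real.log (1 - rho k ^ 2) / 2 : ℝ) : ℂ) by push_cast; ring, ← ofReal_exp]
    simp only [mul_im, ofReal_re, ofReal_im, add_re, add_im, one_re, one_im, I_re, I_im, mul_re]
    ring
  have h2 : 1 / (2 * mu k (X k) ^ 2) ≤ rexp (-Real.log (1 - rho k ^ 2) / 2) := by
    have a1 : rexp (-Real.log (1 - rho k ^ 2) / 2) ^ 2 = 1 / (1 - rho k ^ 2) := by
      rw [← Real.exp_nat_mul, show ((2 : ℕ) : ℝ) * (-Real.log (1 - rho k ^ 2) / 2) =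
        -Real.log (1 - rho k ^ 2) by push_cast; ring, Real.exp_neg, Real.exp_log h0, one_div]
    refine (abs_le_of_sq_le_sq' ?_ (exp_pos _).le).2
    rw [a1, div_pow, one_pow]
    refine one_div_le_one_div_of_le h0 ?_
    have := pow_pos hm 4
    unfold rho
    nlinarith
  have h3 : eps k (X k) * (1 / (2 * mu k (X k) ^ 2)) = (k + 1) / mu k (X k) := by
    have : eps k (X k) = 2 * (k + 1) * mu k (X k) := by unfold mu; field_simp
    rw [this]; field_simp
  have h4 := mul_le_mul_of_nonneg_left h2 (eps_pos k (X k)).le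
  have := im_le_norm (ff (rho k * ze k))
  have := t_pos k
  linarith

theorem ff_not {p α : ℝ} (hα : -1 < α) (hp : 5 * (α + 2) < p) : ¬InA p α ff := by
  intro h
  set n := ⌈4 * (α + 2)⌉₊
  have hn : 4 * (α + 2) ≤ n := Nat.le_ceil _
  have hn2 : (n : ℝ) ≤ p := by
    have := Nat.ceil_lt_add_one (show 0 ≤ 4 * (α + 2) by linarith)
    linarith
  obtain ⟨C, hC⟩ := growth ff_diff hα h n hn2
  obtain ⟨k, hk⟩ := exists_nat_gt (C * 2 ^ (α + 2))
  obtain ⟨r0, r1⟩ := rho_b k
  have hm := mu_pos k (X k)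
  have e : ‖(rho k : ℂ) * ze k‖ = rho k := by simp [ze_norm, abs_of_pos r0]
  have h1 := hC (rho k * ze k) (by rw [mem_ball_zero_iff, e]; exact r1)
  have h2 := ff_big k
  generalize ‖ff (rho k * ze k)‖ = y at h1 h2
  have hy : 0 ≤ y := le_trans (by positivity) h2
  rw [e, rho, sub_sub_cancel, div_rpow (by positivity) (by norm_num), ← rpow_natCast _ 4,
    ← rpow_mul hm.le, ← mul_div_assoc, div_le_iff₀ (by positivity)] at h1
  have hm1 : mu k (X k) ≤ 1 := by
    by_contra hh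
    have := one_le_pow₀ (n := 4) (not_le.1 hh).le
    unfold rho at r0; linarith
  have h3 : mu k (X k) ^ n ≤ mu k (X k) ^ (((4 : ℕ) : ℝ) * (α + 2)) := by
    rw [← rpow_natCast]
    exact rpow_le_rpow_of_exponent_ge hm hm1 (by push_cast; exact hn)
  have h4 : ((k + 1) / mu k (X k)) ^ n * mu k (X k) ^ n ≤ C * 2 ^ (α + 2) :=
    le_trans (by gcongr) h1
  rw [← mul_pow, div_mul_cancel₀ _ hm.ne'] at h4
  have h5 : (k + 1 : ℝ) ≤ (k + 1) ^ n := le_self_pow₀ (by have : (0 : ℝ) ≤ k := k.cast_nonneg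
                                                          linarith)
    (by rintro h0; rw [h0] at hn; push_cast at hn; linarith)
  linarith

end Pool.Agent.H.MP_1ae38f_an
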